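import Pool.Agent.V7H76.AD.Spec2

/-!
# One generation of the construction
-/

set_option linter.all false

open Finset
open scoped Classical

namespace Pool.Agent.V7H43.AD

open Pool.Agent.V7H76.AD

theorem inv_start (P n0 q0 : ℕ) (A : Finset ℕ) (b0 : ℕ → ℕ) :
    Inv P n0 q0 A b0 0 q0 b0 (fun _ => 0) ∅ where
  old := fun _ _ => rfl
  rng := fun j hj => by simp at hj
  win := fun j hj => by simp at hj
  res := fun j hj => by
    have : j = 0 := by simpa using hj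
    subst this
    simp [st]
  adm := fun j hj => by simp at hj
  labA := fun r hr => by simp at hr
  bal := fun g α _ => by simp
  Usub := fun c hc => by simp at hc
  Ucnt := fun c hc => by simp at hc
  Un := fun c h1 h2 => absurd h1 (not_le.2 h2)

theorem inv_all (hSt : S_STEP2) {P m n0 i0 q0 : ℕ} {A : Finset ℕ} {b0 : ℕ → ℕ}
    (hp : ParC P m n0 i0 q0 A b0) (d : ℕ) : ∃ (t : ℕ) (b lab : ℕ → ℕ) (U : Finset ℕ),
    Inv P n0 q0 A b0 t (q0 + d) b lab U := by
  induction d with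
  | zero => exact ⟨0, b0, fun _ => 0, ∅, inv_start P n0 q0 A b0⟩
  | succ d ih =>
    obtain ⟨t, b, lab, U, hI⟩ := ih
    exact hSt P m n0 i0 q0 A b0 hp t (q0 + d) b lab U hI (Nat.le_add_right _ _)

/-- a strictly increasing function on `[0, N)` -/
theorem mono_of_step {f : ℕ → ℕ} {N : ℕ} (h : ∀ j, j + 1 < N → f j < f (j + 1)) (i d : ℕ)
    (hd : i + d < N) : f i + d ≤ f (i + d) := by
  induction d with
  | zero => simp
  | succ d ih =>
    have h1 := ih (by omega)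
    have h2 := h (i + d) (by omega)
    rw [show i + (d + 1) = i + d + 1 by ring]
    omega

/-- reduction of the classes modulo a smaller modulus -/
theorem cls_red {P P1 Bf α : ℕ} (hP : P = Bf * P1) {z z' : ℤ} (h : Cls (16 * P) α z)
    (hz : z ≡ z' [ZMOD ((16 * P1 : ℕ) : ℤ)]) : Cls (16 * P1) (α % (2 * P1)) z' := by
  obtain ⟨k', hk'⟩ := Int.modEq_iff_dvd.1 hz
  obtain ⟨e, he⟩ : ∃ e : ℕ, e = α / (2 * P1) := ⟨_, rfl⟩
  obtain ⟨c, hc⟩ : ∃ c : ℕ, c = α % (2 * P1) := ⟨_, rfl⟩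
  have hα : ((α : ℕ) : ℤ) = (c : ℤ) + 2 * P1 * e := by
    rw [he, hc]
    exact_mod_cast (Nat.mod_add_div α (2 * P1)).symm
  have hPZ : (P : ℤ) = Bf * P1 := by exact_mod_cast hP
  rw [← hc]
  push_cast at hk'
  rcases h with h | h | h | h
  · obtain ⟨k, hk⟩ := Int.modEq_iff_dvd.1 h
    push_cast at hk
    refine Or.inl (Int.modEq_iff_dvd.2 ⟨Bf * k + e - k', ?_⟩)
    push_cast
    rw [hα, hPZ] at hk
    linear_combination hk - hk'
  · obtain ⟨k, hk⟩ := Int.modEq_iff_dvd.1 h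
    push_cast at hk
    refine Or.inr (Or.inl (Int.modEq_iff_dvd.2 ⟨Bf * k - 2 * e - k', ?_⟩))
    push_cast
    rw [hα, hPZ] at hk
    linear_combination hk - hk'
  · obtain ⟨k, hk⟩ := Int.modEq_iff_dvd.1 h
    push_cast at hk
    refine Or.inr (Or.inr (Or.inl (Int.modEq_iff_dvd.2 ⟨Bf * k + 2 * e - k', ?_⟩)))
    push_cast
    rw [hα, hPZ] at hk
    linear_combination hk - hk'
  · obtain ⟨k, hk⟩ := Int.modEq_iff_dvd.1 h
    push_cast at hk
    refine Or.inr (Or.inr (Or.inr (Int.modEq_iff_dvd.2 ⟨Bf * k - e - k', ?_⟩)))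
    push_cast
    rw [hα, hPZ] at hk
    linear_combination hk - hk'

/-- reduction of the states modulo a smaller modulus -/
theorem vs_red {P1 : ℕ} {A A1 : Finset ℕ} (h : ∀ α ∈ A, α % (2 * P1) ∈ A1) {v : ℤ}
    (hv : VS A v) : ∃ v1 : ℤ, VS A1 v1 ∧ v ≡ v1 [ZMOD ((16 * P1 : ℕ) : ℤ)] := by
  rcases hv with rfl | ⟨β, hβ, hv⟩
  · exact ⟨3, Or.inl rfl, Int.ModEq.refl _⟩
  · obtain ⟨e, he⟩ : ∃ e : ℕ, e = β / (2 * P1) := ⟨_, rfl⟩
    obtain ⟨c, hc⟩ : ∃ c : ℕ, c = β % (2 * P1) := ⟨_, rfl⟩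
    have hβ' : ((β : ℕ) : ℤ) = (c : ℤ) + 2 * P1 * e := by
      rw [he, hc]
      exact_mod_cast (Nat.mod_add_div β (2 * P1)).symm
    have hcA : c ∈ A1 := hc ▸ h β hβ
    rcases hv with rfl | rfl
    · refine ⟨-8 * (c : ℤ), Or.inr ⟨_, hcA, Or.inl rfl⟩, ?_⟩
      refine Int.modEq_iff_dvd.2 ⟨e, ?_⟩
      rw [hβ']
      push_cast
      ring
    · refine ⟨8 * (c : ℤ) + 1, Or.inr ⟨_, hcA, Or.inr rfl⟩, ?_⟩
      refine Int.modEq_iff_dvd.2 ⟨-e, ?_⟩
      rw [hβ']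
      push_cast
      ring

theorem st_congr {K t : ℕ} {lab lab' : ℕ → ℕ} (h : ∀ r < t, lab' r = lab r) {j : ℕ}
    (hj : j < t * K) : st K lab' j = st K lab j := by
  have h1 : j / K < t := Nat.div_lt_of_lt_mul (by rwa [mul_comm])
  unfold st
  rw [h _ h1]

section key

variable {P m n0 i0 : ℕ} {A : Finset ℕ} {P1 m1 n1 i1 : ℕ} {A1 : Finset ℕ} {t1 Bf : ℕ}
  {b0 lab1 : ℕ → ℕ}

theorem card_le_P1 (h : Hist P m n0 i0 A P1 m1 n1 i1 A1 t1 Bf b0 lab1) : A1.card ≤ P1 := by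
  have h1 : A1 ⊆ range P1 := fun α hα => mem_range.2 (h.hA1 α hα)
  simpa using card_le_card h1

theorem comp_jp (hU : S_U) (h : Hist P m n0 i0 A P1 m1 n1 i1 A1 t1 Bf b0 lab1) {b : ℕ → ℕ}
    (hb : ∀ j < n0, b j = b0 j) {α' : ℕ} (hα' : α' ∈ A) {j1 : ℕ} (hj : j1 < t1 * P1)
    (hc : Comp P A ((S b n0 : ℤ) - 3) b α' (n1 + j1)) : Jp P1 lab1 (α' % (2 * P1)) j1 := by
  obtain ⟨v, hv, hcl⟩ := hc
  obtain ⟨v1, hv1, hvv⟩ := vs_red h.proj hv
  have hn := h.hn
  have e1 : S b n0 = S b0 n0 := sum_congr rfl fun j hj => hb j (mem_range.1 hj)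
  have e2 : S b (n1 + j1) = S b0 (n1 + j1) :=
    sum_congr rfl fun j hj => hb j (by have := mem_range.1 hj; omega)
  have r1 := h.gen.res j1 hj.le
  have r2 := h.gen.res (t1 * P1) le_rfl
  have hst : st P1 lab1 (t1 * P1) = 3 := by
    unfold st
    rw [if_pos (Nat.mul_mod_left _ _)]
  rw [hst, ← hn] at r2
  obtain ⟨k1, hk1⟩ := Int.modEq_iff_dvd.1 r1
  obtain ⟨k2, hk2⟩ := Int.modEq_iff_dvd.1 r2
  obtain ⟨k3, hk3⟩ := Int.modEq_iff_dvd.1 hvv
  have hz : v + ((S b n0 : ℤ) - 3) - S b (n1 + j1) ≡ v1 - st P1 lab1 j1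
      [ZMOD ((16 * P1 : ℕ) : ℤ)] := by
    refine Int.modEq_iff_dvd.2 ⟨k3 + k2 - k1, ?_⟩
    rw [e1, e2]
    linear_combination hk3 + hk2 - hk1
  have h1 := cls_red h.hP hcl hz
  have hα'' := h.proj α' hα'
  have hP1 : 2 < P1 := by
    have h2 := card_le_P1 h
    have h3 := h.hB2
    have h4 : 1 * 1 ≤ Bf * (m + 1) := Nat.mul_le_mul h.hBf (Nat.le_add_left _ _)
    have h5 : 16384 * Bf * (m + 1) = 16384 * (Bf * (m + 1)) := by ring
    omega
  have hdiv : j1 / P1 < t1 := Nat.div_lt_of_lt_mul (by rwa [mul_comm])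
  -- a general form
  have key : ∀ (lab' : ℕ → ℕ) (l : ℕ), (∀ r < t1, lab' r = lab1 r) →
      (l % P1 ≠ 0 → lab' (l / P1) ∈ A1) → v1 = st P1 lab' l → Jp P1 lab1 (α' % (2 * P1)) j1 := by
    intro lab' l hlab hl hv1'
    have h2 : Cls (16 * P1) (α' % (2 * P1)) (st P1 lab' l - st P1 lab' j1) := by
      rw [← hv1', st_congr hlab hj]
      exact h1
    have h3 := (hU P1 P1 A1 lab' (α' % (2 * P1)) j1 l h.hA1 h.hF1 hα''
      (fun _ => by rw [hlab _ hdiv]; exact h.gen.labA _ hdiv) hl h2).1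
    rcases h3 with h3 | h3
    · exact Or.inl h3
    · exact Or.inr (by rw [← hlab _ hdiv]; exact h3)
  rcases hv1 with hv1 | ⟨β, hβ, hv1⟩
  · exact key lab1 0 (fun _ _ => rfl) (fun h => absurd (Nat.zero_mod _) h) (by
      rw [hv1]
      unfold st
      rw [if_pos (Nat.zero_mod _)])
  · set lab' : ℕ → ℕ := fun r => if r < t1 then lab1 r else β with hlab'
    have hlab : ∀ r < t1, lab' r = lab1 r := fun r hr => by rw [hlab']; simp [hr]
    have hlt : lab' t1 = β := by rw [hlab']; simp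
    rcases hv1 with hv1 | hv1
    · have d1 : (t1 * P1 + 1) / P1 = t1 := by
        rw [mul_comm, Nat.mul_add_div (by omega), Nat.div_eq_of_lt (by omega), add_zero]
      have d2 : (t1 * P1 + 1) % P1 = 1 := by
        rw [mul_comm, Nat.mul_add_mod, Nat.mod_eq_of_lt (by omega)]
      refine key lab' (t1 * P1 + 1) hlab (fun _ => by rw [d1, hlt]; exact hβ) ?_
      rw [hv1]
      unfold st
      rw [d1, d2, hlt, if_neg one_ne_zero, if_pos rfl]
    · have d1 : (t1 * P1 + 2) / P1 = t1 := by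
        rw [mul_comm, Nat.mul_add_div (by omega), Nat.div_eq_of_lt (by omega), add_zero]
      have d2 : (t1 * P1 + 2) % P1 = 2 := by
        rw [mul_comm, Nat.mul_add_mod, Nat.mod_eq_of_lt (by omega)]
      refine key lab' (t1 * P1 + 2) hlab (fun _ => by rw [d1, hlt]; exact hβ) ?_
      rw [hv1]
      unfold st
      rw [d1, d2, hlt, if_neg (by norm_num), if_neg (by norm_num)]

/-- the number of the terms of the previous generation -/
theorem terms_le (h : Hist P m n0 i0 A P1 m1 n1 i1 A1 t1 Bf b0 lab1) :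
    16 * P1 * (t1 * P1) ≤ 2 ^ i0 := by
  rcases Nat.eq_zero_or_pos (t1 * P1) with h0 | h0
  · rw [h0]; simp
  · have hP1 : 1 ≤ P1 := Nat.pos_of_mul_pos_left h0 |> fun _ => by
      rcases Nat.eq_zero_or_pos P1 with h | h
      · rw [h, mul_zero] at h0; exact absurd h0 (lt_irrefl _)
      · exact h
    have h1 := mono_of_step (f := fun j => b0 (n1 + j) / (16 * P1)) (N := t1 * P1)
      (fun j hj => h.gen.win j hj) 0 (t1 * P1 - 1) (by omega)
    have h2 : 1 ≤ b0 (n1 + 0) / (16 * P1) := by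
      rw [Nat.one_le_div_iff (by omega)]
      have h3 := (h.gen.rng 0 h0).1
      have h4 := h.hi3
      have h5 : 16 * P1 * 1 * 1 ≤ 16 * P1 * P1 * P1 := by gcongr <;> omega
      omega
    simp only [zero_add] at h1
    have h3 : t1 * P1 ≤ b0 (n1 + (t1 * P1 - 1)) / (16 * P1) := by omega
    have h4 := (h.gen.rng (t1 * P1 - 1) (by omega)).2
    have h5 : b0 (n1 + (t1 * P1 - 1)) / (16 * P1) * (16 * P1) ≤ b0 (n1 + (t1 * P1 - 1)) :=
      Nat.div_mul_le_self _ _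
    have h6 : t1 * P1 * (16 * P1) ≤ b0 (n1 + (t1 * P1 - 1)) / (16 * P1) * (16 * P1) :=
      Nat.mul_le_mul_right _ h3
    have h7 : 16 * P1 * (t1 * P1) = t1 * P1 * (16 * P1) := by ring
    omega

theorem cmp_bound (hU : S_U) (hB : S_BLK) (h : Hist P m n0 i0 A P1 m1 n1 i1 A1 t1 Bf b0 lab1)
    {b : ℕ → ℕ} (hb : ∀ j < n0, b j = b0 j) {P2 : ℕ} (hP2 : P2 = Bf * P)
    (ht : t1 = 0 ∨ 8192 * Bf ^ 2 ≤ A1.card) (hn1 : 512 * (16 * P2) * n1 ≤ 2 ^ i0) {α' : ℕ}
    (hα' : α' ∈ A) : 256 * (16 * P2) * ((range n0).filter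
      (fun j => Comp P A ((S b n0 : ℤ) - 3) b α' j)).card ≤ 2 ^ i0 := by
  set α'' : ℕ := α' % (2 * P1) with hα''
  set F : Finset ℕ := (Ico 0 (t1 * P1)).filter (fun j => j ≤ t1 * P1 ∧ Jp P1 lab1 α'' j) with hF
  have hn := h.hn
  have h1 : (range n0).filter (fun j => Comp P A ((S b n0 : ℤ) - 3) b α' j) ⊆
      range n1 ∪ F.image (fun j => n1 + j) := by
    intro j hj
    rw [mem_filter, mem_range] at hj
    rw [mem_union, mem_range, mem_image]
    rcases Nat.lt_or_ge j n1 with hj1 | hj1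
    · exact Or.inl hj1
    · right
      obtain ⟨j1, rfl⟩ := Nat.exists_eq_add_of_le hj1
      have h2 : j1 < t1 * P1 := by omega
      refine ⟨j1, ?_, rfl⟩
      rw [hF, mem_filter, mem_Ico]
      exact ⟨⟨Nat.zero_le _, h2⟩, h2.le, comp_jp hU h hb hα' h2 hj.2⟩
  have h2 : ((range n0).filter (fun j => Comp P A ((S b n0 : ℤ) - 3) b α' j)).card ≤
      n1 + F.card := by
    refine (card_le_card h1).trans ((card_union_le _ _).trans ?_)
    rw [card_range]
    exact Nat.add_le_add_left card_image_le _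
  have h3 : 512 * (16 * P2) * F.card ≤ 2 ^ i0 := by
    rcases ht with ht | ht
    · have : F = ∅ := by rw [hF, ht, zero_mul]; simp
      rw [this]; simp
    · have hc := card_le_P1 h
      have hBf := h.hBf
      have hA1 : 0 < A1.card := by
        have : 1 ^ 2 ≤ Bf ^ 2 := Nat.pow_le_pow_left hBf 2
        omega
      have h4 := hB P1 t1 A1 lab1 α'' (by omega) hc (fun g => h.gen.bal g α'' (h.proj α' hα'))
        0 (t1 * P1)
      rw [← hF, Nat.sub_zero] at h4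
      have h5 := terms_le h
      have h6 : 16 * P1 * P1 * P1 ≤ 2 ^ i0 :=
        h.hi3.trans (Nat.pow_le_pow_right (by norm_num) h.hi1)
      have hP : P2 = Bf * (Bf * P1) := by rw [hP2, h.hP]
      apply Nat.le_of_mul_le_mul_left _ hA1
      calc A1.card * (512 * (16 * P2) * F.card)
          = 8192 * Bf ^ 2 * P1 * (A1.card * F.card) := by rw [hP]; ring
        _ ≤ 8192 * Bf ^ 2 * P1 * (4 * (t1 * P1) + 8 * P1 * P1) := Nat.mul_le_mul_left _ h4
        _ = 512 * Bf ^ 2 * (4 * (16 * P1 * (t1 * P1)) + 8 * (16 * P1 * P1 * P1)) := by ring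
        _ ≤ 512 * Bf ^ 2 * (4 * 2 ^ i0 + 8 * 2 ^ i0) := by gcongr
        _ = 6144 * Bf ^ 2 * 2 ^ i0 := by ring
        _ ≤ 8192 * Bf ^ 2 * 2 ^ i0 := by gcongr; norm_num
        _ ≤ A1.card * 2 ^ i0 := by gcongr
  have h4 : 256 * (16 * P2) * ((range n0).filter
      (fun j => Comp P A ((S b n0 : ℤ) - 3) b α' j)).card ≤ 256 * (16 * P2) * (n1 + F.card) :=
    Nat.mul_le_mul_left _ h2
  have h5 : 2 * (256 * (16 * P2) * (n1 + F.card)) =
      512 * (16 * P2) * n1 + 512 * (16 * P2) * F.card := by ring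
  omega

end key

theorem t_GEN (hU : S_U) (hB : S_BLK) (hSt : S_STEP2) (hD : S_DENS2) (hC : S_CNT2) : S_GEN := by
  intro P m n0 i0 q0 L A b0 hp P1 m1 n1 i1 A1 t1 Bf lab1 hH P2 m2 A2 hN hinc hlt ht hn1
  have hP : 0 < P := by rw [hp.hP]; positivity
  have hq : q0 * 2 ^ L = q0 + (q0 * 2 ^ L - q0) := by
    have : q0 * 1 ≤ q0 * 2 ^ L := Nat.mul_le_mul_left _ Nat.one_le_two_pow
    omega
  obtain ⟨t, b, lab, U, hI⟩ := inv_all hSt hp (q0 * 2 ^ L - q0)
  rw [← hq] at hI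
  have hup : q0 * 2 ^ L * (32 * P * P) = 2 ^ (i0 + L) := by
    rw [pow_add, ← hp.hq]; ring
  have hrng : ∀ j < t * P, 2 ^ i0 ≤ b (n0 + j) ∧ b (n0 + j) < 2 ^ (i0 + L) := by
    intro j hj
    have h1 := hI.rng j hj
    rwa [hp.hq, hup] at h1
  have hle : 2 ^ i0 ≤ 2 ^ (i0 + L) := Nat.pow_le_pow_right (by norm_num) (Nat.le_add_right _ _)
  have hmono : ∀ j, j + 1 < n0 + t * P → b j < b (j + 1) := by
    intro j hj
    rcases Nat.lt_or_ge (j + 1) n0 with h1 | h1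
    · rw [hI.old j (by omega), hI.old (j + 1) h1]
      exact hinc j h1
    · rcases Nat.lt_or_ge j n0 with h2 | h2
      · have e : j + 1 = n0 := by omega
        have h3 := (hrng 0 (by omega)).1
        rw [add_zero] at h3
        rw [hI.old j h2, e]
        exact lt_of_lt_of_le (hlt j h2) h3
      · have h3 := hI.win (j - n0) (by omega)
        rw [show n0 + (j - n0) = j by omega, show n0 + (j - n0 + 1) = j + 1 by omega] at h3
        by_contra hc
        push Not at hc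
        exact absurd (Nat.div_le_div_right (c := 16 * P) hc) (not_le.2 h3)
  have hblt : ∀ j < n0 + t * P, b j < 2 ^ (i0 + L) := by
    intro j hj
    rcases Nat.lt_or_ge j n0 with h1 | h1
    · rw [hI.old j h1]
      exact (hlt j h1).trans_le hle
    · have h2 := (hrng (j - n0) (by omega)).2
      rwa [show n0 + (j - n0) = j by omega] at h2
  have hdens : ∀ i, i0 ≤ i → i < i0 + L → 2 ^ i ≤ 64 * P * ((range (t * P)).filter
      (fun j => 2 ^ i ≤ b (n0 + j) ∧ b (n0 + j) < 2 ^ (i + 1))).card := by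
    intro i h1 h2
    exact hD P m n0 i0 q0 L A b0 hp t b lab U hI (fun i' h3 h4 α hα =>
      hC P m n0 i0 q0 L A b0 hp P1 m1 n1 i1 A1 t1 Bf lab1 hH hN.hL t (q0 * 2 ^ L) b lab U hI
        i' h3 h4 α hα) i h1 h2
  have hL1 := hN.hL1
  -- the last term
  have hlast : 32 * P2 * P2 ≤ b (n0 + t * P - 1) := by
    have h1 := hdens (i0 + L - 1) (by omega) (by omega)
    have h2 : 0 < ((range (t * P)).filter (fun j => 2 ^ (i0 + L - 1) ≤ b (n0 + j) ∧
        b (n0 + j) < 2 ^ (i0 + L - 1 + 1))).card := by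
      by_contra hc
      have h3 : ((range (t * P)).filter (fun j => 2 ^ (i0 + L - 1) ≤ b (n0 + j) ∧
        b (n0 + j) < 2 ^ (i0 + L - 1 + 1))).card = 0 := by omega
      rw [h3, mul_zero] at h1
      have h4 : 0 < 2 ^ (i0 + L - 1) := by positivity
      omega
    obtain ⟨j, hj⟩ := card_pos.1 h2
    rw [mem_filter, mem_range] at hj
    have h3 := mono_of_step (f := b) (N := n0 + t * P) hmono (n0 + j) (t * P - 1 - j) (by omega)
    rw [show n0 + j + (t * P - 1 - j) = n0 + t * P - 1 by omega] at h3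
    have h4 := hN.hb
    have h5 : 2 ^ (i0 + L) = 2 * 2 ^ (i0 + L - 1) := by
      rw [← pow_succ', show i0 + L - 1 + 1 = i0 + L by omega]
    have h6 : 64 * P2 * P2 = 2 * (32 * P2 * P2) := by ring
    omega
  -- the number of cells
  have hq2 : ∃ q2, q2 * (32 * P2 * P2) = 2 ^ (i0 + L) := by
    have h1 : 32 * P2 * P2 = 2 ^ (5 + 2 * m2) := by
      rw [hN.hP, pow_add, two_mul, pow_add]; ring
    have h2 : 2 ^ (5 + 2 * m2) ≤ 2 ^ (i0 + L) := by
      rw [← h1]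
      have := hN.hb
      have h3 : 64 * P2 * P2 = 2 * (32 * P2 * P2) := by ring
      omega
    have h3 : 5 + 2 * m2 ≤ i0 + L := (Nat.pow_le_pow_iff_right (by norm_num)).1 h2
    refine ⟨2 ^ (i0 + L - (5 + 2 * m2)), ?_⟩
    rw [h1, ← pow_add, Nat.sub_add_cancel h3]
  obtain ⟨q2, hq2⟩ := hq2
  -- the sum of the old part
  have hsum : S b n0 < 2 ^ (i0 + L) := by
    have h1 : S b n0 = S b0 n0 := sum_congr rfl fun j hj => hI.old j (mem_range.1 hj)
    have hn0 := hp.hn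
    have h2 : n0 ≤ 2 ^ i0 := by
      have h3 := mono_of_step (f := b0) (N := n0) hinc 0 (n0 - 1) (by omega)
      have h4 := hlt (n0 - 1) (by omega)
      rw [zero_add] at h3
      omega
    have h3 : S b0 n0 < n0 * 2 ^ i0 := by
      unfold S
      have h4 : ∑ j ∈ range n0, b0 j < ∑ j ∈ range n0, 2 ^ i0 :=
        sum_lt_sum_of_nonempty (nonempty_range_iff.2 (by omega)) fun j hj => hlt j (mem_range.1 hj)
      rwa [sum_const, card_range, smul_eq_mul] at h4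
    have h4 : n0 * 2 ^ i0 ≤ 2 ^ i0 * 2 ^ i0 := Nat.mul_le_mul_right _ h2
    have h5 : 2 ^ i0 * 2 ^ i0 ≤ 2 ^ (i0 + L) := by
      rw [← pow_add]
      exact Nat.pow_le_pow_right (by norm_num) (Nat.add_le_add_left hN.hLi _)
    omega
  refine ⟨t, b, lab, q2, hI.old, hmono, hblt, ?_, hdens, ?_, ?_⟩
  · intro j hj hj'
    have h1 := hI.adm (j - n0) (by omega)
    rwa [show n0 + (j - n0) = j by omega] at h1
  · exact ⟨hN.hP, hp.hm.trans hN.hm, hN.hA, hN.hF, hN.hN, by have := hp.hn; omega, hlast, hN.hi,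
      hq2⟩
  · refine ⟨⟨hrng, hI.win, hI.res, hI.labA, hI.bal⟩, rfl, hN.hPB, hN.hBf, hp.hP, hp.hm,
      Nat.le_add_right _ _, hp.hA, hp.hF, hp.hi, hN.proj, hN.fib, ?_, hN.hB2, hsum, ?_⟩
    · rw [Nat.add_sub_cancel_left]
      exact hN.hB1
    · intro α hα
      exact cmp_bound hU hB hH hI.old hN.hPB ht hn1 (hN.proj α hα)

end Pool.Agent.V7H43.AD
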